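import Pool.Agent.Q284.SL.All

/-!
# Every spacing law is compatible with Euler product, functional equations and Riemann hypothesis of all abelian twists

`K = F(T)`, `F` ANY finite field, `q = |F|`.  Let `r ≥ 1`, and for every primitive Hayes character `χ` (the idele class
characters of `K` up to unramified twists `|·|^s`) let `τ χ : ℤ → ℝ` be a pattern: a strictly increasing sequence with
`τ (k + r) = τ k + r` (mean gap one), arbitrary except that the pattern of the conjugate of `χ` is the mirror image of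
the pattern of `χ`.  There are self-dual tempered unramified representations `Π_P` of `PGL_n(K_P)` at all finite places
`P`, with Satake parameters `α P j`, such that for EVERY `χ` the twisted `L`-function `L(s, Π ⊗ χ)` is entire, a
polynomial in `q^(-s)` of the prescribed degree `D = r h(χ)`, with the functional equation `s ↦ 1 - s`, satisfies the
Riemann hypothesis, all zeros `1/2 + i t_k` (`k ∈ ℤ`, `t_k` increasing) are simple, and the normalised gaps
`(D log q / 2π) (t_(k+1) - t_k)` are equal to the gaps `τ χ (k + 1) - τ χ k` of the pattern up to the relative error `δ`,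
for all `k`.

So the law of the gaps between consecutive zeros, and the joint law of any number of consecutive gaps, can be any law
(every law of mean one on the positive half line is a limit of laws of the gaps of periodic patterns): the law of
Gaudin, the law of a Poisson process, the picket fence (`r = 1`), different laws for different `χ`.

The degrees may be any multiples `r h(χ)` of `r` with `h(χ) ≥ ν (deg Q + max M (l + 1) - 2)`, `ν ≥ 9`; for `n` a multiple
of `r`, `n ≥ 9 r`, one can take `ν = n/r` and the expected degree `n (deg Q + max M (l + 1) - 2)` of a representation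
with a supercuspidal component of depth `M - 1` at infinity.

Projects WE (Weil's bound for all Hayes characters), GE, SL: plan, statements with paper proofs and assembly by
helper284; lemmas proved by helpers 14, 24, 31, 38, 53, 68, 92, 96, 150, 151, 154, 166, 190, 195, 198, 208, 211, 223, 224,
237, 241, 265, 275, 277.
-/

set_option autoImplicit false

open Finset Polynomial ComplexConjugate

namespace Pool.Agent.Results.MP_ca0a54_nt.EverySpacingPattern

open Pool.Agent.Q284.PS (Prim Place absPow Nice Tempered)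
open Pool.Agent.Q284.PX (SelfDual)
open Pool.Agent.Q284.SL (FollowsPattern rootNumber)

theorem result : ∀ (n r : ℕ) (δ : ℝ), 4 ≤ n → 1 ≤ r → 0 < δ → δ ≤ 1 → ∃ M₀ : ℕ, 3 ≤ M₀ ∧
    ∀ (F : Type) [Field F] [Fintype F] (ν M : ℕ), 9 ≤ ν → M₀ ≤ M →
    ∀ (h : F[X] → ℕ → (F[X] → ℂ) → ℕ) (τ : (F[X] → ℂ) → ℤ → ℝ),
    -- the degrees are the numbers `r * h Q l χ`
    (∀ (Q : F[X]) (l : ℕ) (χ : F[X] → ℂ), Prim Q l χ →
      ν * (Q.natDegree + max M (l + 1) - 2) ≤ h Q l χ ∧ h Q l (fun f => conj (χ f)) = h Q l χ) →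
    -- the patterns
    (∀ χ : F[X] → ℂ, StrictMono (τ χ) ∧ (∀ k : ℤ, τ χ (k + r) = τ χ k + r) ∧
      ∀ k : ℤ, ∃ j : ℤ, τ (fun f => conj (χ f)) k = -τ χ j) →
    ∃ α : F[X] → Fin n → ℂ, Tempered α ∧ SelfDual α ∧
      (∀ P : F[X], P.Monic → Irreducible P →
        ‖∑ j, α P j‖ ≤ (Fintype.card F : ℝ) ^ (-(9 / 10 * (1 / 2 - 4 / (ν : ℝ)) * P.natDegree))) ∧
      ∀ (Q : F[X]) (l : ℕ) (χ : F[X] → ℂ), Prim Q l χ → ∃ L : ℂ → ℂ,
        Nice (Fintype.card F) (r * h Q l χ) (rootNumber r (τ χ)) L ∧
        FollowsPattern (Fintype.card F) (r * h Q l χ) δ (τ χ) L ∧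
        ∀ s : ℂ, 1 - 9 / 10 * (1 / 2 - 4 / (ν : ℝ)) < s.re →
          HasProd (fun P : Place F => ∏ j, (1 - α P.1 j * (χ P.1 * absPow P.1 s))⁻¹) (L s) := by
  intro n r δ hn hr hδ hδ1
  obtain ⟨M₀, hM₀, H⟩ := Pool.Agent.Q284.SL.patStm n r δ hn hr hδ hδ1
  refine ⟨M₀, hM₀, ?_⟩
  intro F _ _ ν M hν hM h τ hh hτ
  obtain ⟨α, h1, h2, h3, h4⟩ := H F ν M hν hM (Pool.Agent.Q284.GE.lev h) τ (by
    intro Q l χ hχ
    rw [Pool.Agent.Q284.GE.lev_eq _ hχ, Pool.Agent.Q284.GE.lev_eq _ (Pool.Agent.Q284.GE.prim_conj hχ)]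
    exact hh Q l χ hχ) hτ
  refine ⟨α, h1, h2, h3, ?_⟩
  intro Q l χ hχ
  obtain ⟨L, h6, h7, h8⟩ := h4 Q l χ hχ
  rw [Pool.Agent.Q284.GE.lev_eq _ hχ] at h6 h7
  exact ⟨L, h6, h7, h8⟩

end Pool.Agent.Results.MP_ca0a54_nt.EverySpacingPattern
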