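import Pool.Agent.Q172.HS.S5

/-!
# Gaps below half the mean spacing, or the Alternative Hypothesis as an extremal case

Assume the Riemann hypothesis, and let `F(α, T)` be Montgomery's function.  Suppose that only few
gaps between consecutive ordinates up to `T` are smaller than `(1/2 - δ)` times the mean spacing
(in particular, suppose that Q1 is false for the dyadic intervals up to `T`).  We show that `F` on
`(1, 2)` is then confined to a wedge with the Alternative Hypothesis at its vertex: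

* `∫_1^2 (1 - α/2 - |sin πα| / 2π) F(α, T) dα ≤ 1/6 - 1/(2π²) + o(1)`, and
* `∫_1^2 |sin πα| F(α, T) dα ≥ 1/π - o(1)`,

where equality holds asymptotically in the first estimate if and only if almost all the spacings are
close to positive half-integers.  So a lower bound for a weighted mean of `F` over `(1, 2)` which
exceeds the value `1/6 - 1/(2π²) = 0.116` of the Alternative Hypothesis (the pair correlation
conjecture predicts `1/4 - 1/π² = 0.148`), or an upper bound for the second mean below `1/π`, gives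
a positive proportion of gaps smaller than `(1/2 - δ)` times the mean spacing.  The first statement is
proved for every threshold `1/R < 1` in place of `1/2`.

Proof.  The cosine transform of `ψ(|α|/R)/R`, `ψ(t) = 1 - t + sin(2πt)/(2π)`, is
`sinc²(Rx) / (1 - R²x²)`, positive for `|x| < 1/R`, nonpositive beyond, with double zeros at the
multiples of `1/R` other than `0`, `±1/R` and simple zeros at `±1/R`.  By Montgomery's theorem the
integral of `ψ(α/R) F(α, T)` over `(κ, R)` exceeds a constant by `R` times the mean of this kernel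
over the pairs of different zeros, and the pairs at a distance less than `1/R` come from small gaps
(the clusters of the zeros are rare).  For the second estimate combine with
`MP_f0209c_nt.ExtremalityOfAH`, the corresponding lower bound for the tent function.
-/

set_option autoImplicit false

open Filter Topology
open Complex (I)

namespace Pool.Agent.Results.MP_ca0a54_nt.FormFactorCriterion

/-- the multiplicity of `s` as a zero of the Riemann zeta function (order of vanishing at `s`) -/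
noncomputable def zmult (s : ℂ) : ℕ := analyticOrderNatAt riemannZeta s

/-- the nontrivial zeros of `ζ` with ordinate in `(0, T]` -/
def zeros (T : ℝ) : Set ℂ :=
  {s : ℂ | riemannZeta s = 0 ∧ 0 < s.re ∧ s.re < 1 ∧ 0 < s.im ∧ s.im ≤ T}

/-- the number of the nontrivial zeros of `ζ` with ordinate in `(0, T]`, with multiplicity -/
noncomputable def N (T : ℝ) : ℕ := ∑ᶠ s ∈ zeros T, zmult s

/-- for `n ≥ 1`: the `n`-th positive ordinate `γ n` of a nontrivial zero of `ζ`, the ordinates being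
listed in nondecreasing order and repeated according to multiplicity -/
noncomputable def γ (n : ℕ) : ℝ := sInf {t : ℝ | n ≤ N t}

/-- the normalised spacings `d_n = γ_{n+1} log γ_{n+1} / 2π - γ_n log γ_n / 2π`, which are
asymptotically equal to `(γ_{n+1} - γ_n) log γ_n / 2π` -/
noncomputable def d (n : ℕ) : ℝ :=
  (γ (n + 1) * Real.log (γ (n + 1)) - γ n * Real.log (γ n)) / (2 * Real.pi)

/-- Montgomery's function `F(α, T)` (a real number, written as a complex one) -/
noncomputable def F (α T : ℝ) : ℂ :=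
  (2 * Real.pi / (T * Real.log T) : ℝ) * ∑ᶠ s ∈ zeros T, ∑ᶠ s' ∈ zeros T,
    (zmult s : ℂ) * (zmult s' : ℂ) *
    ((T : ℂ) ^ (I * α * (s.im - s'.im)) * (4 / (4 + (s.im - s'.im) ^ 2)))

/-- the proportion, among the spacings `d_n` with `γ_n ≤ T`, of those smaller than `c` -/
noncomputable def small (c T : ℝ) : ℝ := ({n : ℕ | 1 ≤ n ∧ γ n ≤ T ∧ d n < c}.ncard : ℝ) / N T

/-- the proportion, among the spacings `d_n` with `γ_n ≤ T`, of those whose distance from each of
the numbers `k / R`, `k = 1, 2, 3, …`, is at least `ε` -/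
noncomputable def away (R ε T : ℝ) : ℝ :=
  ({n : ℕ | 1 ≤ n ∧ γ n ≤ T ∧ ∀ k : ℕ, 1 ≤ k → ε ≤ |d n - k / R|}.ncard : ℝ) / N T

/-- the weight `ψ(t) = 1 - t + sin(2πt)/(2π)`; it is nonnegative on `[0, 1]` -/
noncomputable def ψ (t : ℝ) : ℝ := 1 - t + Real.sin (2 * Real.pi * t) / (2 * Real.pi)

/-- the extremal value `(R - 1)/2 - ∫_0^κ ψ(u/R) u du` -/
noncomputable def b (R κ : ℝ) : ℝ := (R - 1) / 2 - ∫ u in (0 : ℝ)..κ, ψ (u / R) * u

lemma NZ_eq (T : ℝ) : N T = SG.NZ T := rfl

lemma ord_eq (n : ℕ) : γ n = SG.ord n := rfl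

lemma del_eq (n : ℕ) : d n = H177.Lat.del n := rfl

lemma ψ_eq : ψ = Q172.HS.psi := rfl

lemma small_eq (c T : ℝ) : small c T = ((Q172.HS.SM c T).card : ℝ) / SG.NZ T := by
  classical
  unfold small
  congr 2
  rw [← Set.ncard_coe_finset]
  congr 1
  ext n
  unfold Q172.HS.SM
  rw [Finset.mem_coe, Finset.mem_filter, Finset.mem_Ioc]
  constructor
  · rintro ⟨h1, h2, h3⟩
    exact ⟨⟨h1, (SG.ord_le_iff h1 T).1 h2⟩, h3⟩
  · rintro ⟨⟨h1, h2⟩, h3⟩
    exact ⟨h1, (SG.ord_le_iff h1 T).2 h2, h3⟩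

lemma away_eq (R ε T : ℝ) :
    away R ε T = ((Pool.Agent.Y763.AH.BT R ε T).card : ℝ) / SG.NZ T := by
  classical
  unfold away
  congr 2
  rw [← Set.ncard_coe_finset]
  congr 1
  ext n
  unfold Pool.Agent.Y763.AH.BT Pool.Agent.Y763.AH.Bad
  rw [Finset.mem_coe, Finset.mem_filter, Finset.mem_Ioc]
  constructor
  · rintro ⟨h1, h2, h3⟩
    exact ⟨⟨h1, (SG.ord_le_iff h1 T).1 h2⟩, h3⟩
  · rintro ⟨⟨h1, h2⟩, h3⟩
    exact ⟨h1, (SG.ord_le_iff h1 T).2 h2, h3⟩

lemma F_eq {T : ℝ} (hT : 10 ≤ T) (α : ℝ) : (F α T).re = Pool.Agent.Y749.Rig.Fr T α := by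
  have h : F α T = Pool.Agent.Y749.Rig.P.F T α := by
    have hz : zeros T = Pool.Agent.Y744.G.zeros T := by
      ext s
      simp only [zeros, Pool.Agent.Y744.G.zeros, Set.mem_ofPred_eq]
      tauto
    unfold F Pool.Agent.Y749.Rig.P.F
    rw [hz]
    have hX : ((2 * Real.pi / (T * Real.log T) : ℝ) : ℂ) = ((Pool.Agent.Y744.G.X T : ℝ) : ℂ)⁻¹ := by
      rw [← Complex.ofReal_inv]
      congr 1
      unfold Pool.Agent.Y744.G.X
      rw [div_mul_eq_mul_div, inv_div]
    rw [hX]
    rfl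
  rw [h, Pool.Agent.Y749.Rig.P.F_eq hT, Complex.ofReal_re]

lemma int_eq {T : ℝ} (hT : 10 ≤ T) (g : ℝ → ℝ) (p q : ℝ) :
    ∫ α in p..q, g α * (F α T).re = ∫ α in p..q, g α * Pool.Agent.Y749.Rig.Fr T α := by
  refine intervalIntegral.integral_congr fun α _ => ?_
  show g α * (F α T).re = g α * Pool.Agent.Y749.Rig.Fr T α
  rw [F_eq hT]

lemma b_two : b 2 1 = 1 / 6 - 1 / (2 * Real.pi ^ 2) := by
  have hpi := Real.pi_pos
  have h := Q172.HS.val2 1
  rw [Q172.HS.sin_val] at h
  have e : b 2 1 = Q172.HS.bK 2 1 := rfl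
  have e2 : Pool.Agent.Y763.AH.jc 2 1 = 1 / 3 := by
    unfold Pool.Agent.Y763.AH.jc
    norm_num
  rw [e2, ← e] at h
  have h2 : 1 / 3 - 2 * b 2 1 = 1 / Real.pi ^ 2 := by
    have h3 : Real.pi * (1 / 3 - 2 * b 2 1) = Real.pi * (1 / Real.pi ^ 2) := by
      rw [h]
      field_simp
    exact mul_left_cancel₀ hpi.ne' h3
  have h4 : 1 / (2 * Real.pi ^ 2) = (1 / Real.pi ^ 2) / 2 := by field_simp
  rw [h4]
  linarith

/-- Assume the Riemann hypothesis.

(1) For all `R > 1` and `η > 0` there are `δ > 0` and `κ > 0` such that for all large `T`, if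
`∫_1^R ψ(α/R) F(α, T) dα ≥ b(R, 1) + η`, then the proportion of the spacings `d_n`, `γ_n ≤ T`, smaller
than `1/R - δ` is at least `κ`.  For `R = 2` the constant is `b(2, 1) = 1/6 - 1/(2π²)`.

(2) For all `η > 0` there are `δ > 0` and `κ > 0` such that for all large `T`, if
`∫_1^2 |sin(πα)| F(α, T) dα ≤ 1/π - η`, then the proportion of the spacings `d_n`, `γ_n ≤ T`, smaller
than `1/2 - δ` is at least `κ`.

(3) Let `R > 1`, `0 < κ < 1`, and let `l` be a filter finer than `T → ∞` (for instance a sequence of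
`T` tending to infinity) such that for every `δ > 0` the proportion of the spacings smaller than
`1/R - δ` tends to zero along `l`.  Then `∫_κ^R ψ(α/R) F(α, T) dα` tends to `b(R, κ)` along `l` if and
only if, for every `ε > 0`, the proportion of the spacings with distance at least `ε` from all the
numbers `k / R`, `k ≥ 1`, tends to zero along `l`. -/
theorem result (RH : RiemannHypothesis) :
    (∀ R : ℝ, 1 < R → ∀ η : ℝ, 0 < η → ∃ δ κ : ℝ, 0 < δ ∧ 0 < κ ∧ ∀ᶠ T : ℝ in atTop,
      b R 1 + η ≤ ∫ α in (1 : ℝ)..R, ψ (α / R) * (F α T).re → κ ≤ small (1 / R - δ) T) ∧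
    b 2 1 = 1 / 6 - 1 / (2 * Real.pi ^ 2) ∧
    (∀ η : ℝ, 0 < η → ∃ δ κ : ℝ, 0 < δ ∧ 0 < κ ∧ ∀ᶠ T : ℝ in atTop,
      ∫ α in (1 : ℝ)..2, |Real.sin (Real.pi * α)| * (F α T).re ≤ 1 / Real.pi - η →
        κ ≤ small (1 / 2 - δ) T) ∧
    (∀ R κ : ℝ, 1 < R → 0 < κ → κ < 1 → ∀ l : Filter ℝ, l ≤ atTop →
      (∀ δ : ℝ, 0 < δ → Tendsto (fun T => small (1 / R - δ) T) l (𝓝 0)) →
      (Tendsto (fun T => ∫ α in κ..R, ψ (α / R) * (F α T).re) l (𝓝 (b R κ)) ↔
        ∀ ε : ℝ, 0 < ε → Tendsto (fun T => away R ε T) l (𝓝 0))) := by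
  refine ⟨?_, b_two, ?_, ?_⟩
  · intro R hR η hη
    obtain ⟨δ, κ, h1, _, h2, h3⟩ := Q172.HS.crit1 RH hR.le hη
    refine ⟨δ, κ, h1, h2, ?_⟩
    filter_upwards [h3, eventually_ge_atTop 10] with T h4 hT h5
    rw [int_eq hT (fun α => ψ (α / R))] at h5
    rw [small_eq]
    rcases h4 with h6 | h6
    · exact absurd h5 (not_le.2 h6)
    · exact h6
  · intro η hη
    obtain ⟨δ, κ, h1, _, h2, h3⟩ := Q172.HS.sine RH hη
    refine ⟨δ, κ, h1, h2, ?_⟩
    filter_upwards [h3, eventually_ge_atTop 10] with T h4 hT h5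
    rw [int_eq hT (fun α => |Real.sin (Real.pi * α)|)] at h5
    rw [small_eq]
    rcases h4 with h6 | h6
    · exact absurd h5 (not_le.2 h6)
    · exact h6
  · intro R κ hR hκ hκ1 l hl hs
    simp only [small_eq] at hs
    simp only [away_eq]
    rw [← Q172.HS.iff_km RH hR.le hκ hκ1 hl hs]
    have h10 : ∀ᶠ T in l, (10 : ℝ) ≤ T := hl (eventually_ge_atTop 10)
    refine tendsto_congr' ?_
    filter_upwards [h10] with T hT
    exact int_eq hT (fun α => ψ (α / R)) κ R

end Pool.Agent.Results.MP_ca0a54_nt.FormFactorCriterion
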