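import Pool.Agent.Q97.UM.Base9
import Pool.Agent.Q97.UM.Rh

set_option autoImplicit false

/-!
# MP_ca0a54_nt: small and large gaps between the zeros, relative to every Dirichlet polynomial

Unconditionally, there are `η, θ, c > 0` such that for all large `T`, all `N ≤ T ^ θ` and ALL complex numbers `b_1, …, b_N`, with
`B(t) = ∑ b_n n^(-1/2 - it)`: the zeros with ordinate in `(T, 2T]` which are multiple or have another zero with ordinate at distance at most
`1 - η` times the average spacing `2π / log T` carry at least the proportion `c` of the sum of `|B(γ)|²` over all these zeros, and so do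
the zeros whose ordinate is not followed by another ordinate at distance less than `1 + η` times the average spacing.
-/

namespace Pool.Agent.Results.MP_ca0a54_nt.GapsForEveryPolynomial

open Filter Topology MeasureTheory Complex

noncomputable section

/-- the Dirichlet polynomial with coefficients `b_1, …, b_N` on the critical line -/
def B (N : ℕ) (b : ℕ → ℂ) (t : ℝ) : ℂ := ∑ n ∈ Finset.Icc 1 N, b n * (n : ℂ) ^ (-(1 / 2 + t * I))

/-- `(log T / 2π) ∫_T^{2T} |B|²` -/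
def Mean (T : ℝ) (N : ℕ) (b : ℕ → ℂ) : ℝ := Real.log T / (2 * Real.pi) * ∫ t in T..(2 * T), ‖B N b t‖ ^ 2

/-- the nontrivial zeros of zeta with ordinate in `(T, 2T]` -/
def zeros (T : ℝ) : Set ℂ := {s : ℂ | riemannZeta s = 0 ∧ 0 < s.re ∧ s.re < 1 ∧ T < s.im ∧ s.im ≤ 2 * T}

/-- the average spacing -/
def spacing (T : ℝ) : ℝ := 2 * Real.pi / Real.log T

/-- the zeros which are multiple or have another zero with ordinate at distance at most `(1 - η)` average spacings -/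
def close (η T : ℝ) : Set ℂ := {s : ℂ | s ∈ zeros T ∧ (2 ≤ analyticOrderNatAt riemannZeta s ∨
  ∃ s' : ℂ, riemannZeta s' = 0 ∧ 0 < s'.re ∧ s'.re < 1 ∧ s' ≠ s ∧ |s'.im - s.im| ≤ (1 - η) * spacing T)}

/-- the zeros whose ordinate is not followed by another ordinate at distance less than `(1 + η)` average spacings -/
def apart (η T : ℝ) : Set ℂ := {s : ℂ | s ∈ zeros T ∧
  ∀ s' : ℂ, riemannZeta s' = 0 → 0 < s'.re → s'.re < 1 → ¬ (s.im < s'.im ∧ s'.im < s.im + (1 + η) * spacing T)}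

/-- the sum of `|B|²` over the ordinates of the zeros in a set, with multiplicity -/
def Mass (Z : Set ℂ) (N : ℕ) (b : ℕ → ℂ) : ℝ := ∑ᶠ s ∈ Z, (analyticOrderNatAt riemannZeta s : ℝ) * ‖B N b s.im‖ ^ 2

/-- the same without multiplicity -/
def Mass1 (Z : Set ℂ) (N : ℕ) (b : ℕ → ℂ) : ℝ := ∑ᶠ s ∈ Z, ‖B N b s.im‖ ^ 2

lemma zeros_eq (T : ℝ) : zeros T = H370.zset riemannZeta T (2 * T) := by
  ext s
  simp only [zeros, H370.zset, Set.mem_ofPred_eq]
  tauto

theorem zeros_finite (T : ℝ) (h : 0 < T) : (zeros T).Finite := by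
  rw [zeros_eq]
  exact H370.zset_finite' H370.good_zeta T (2 * T) h

lemma all_eq (T : ℝ) (h : 1 ≤ T) (N : ℕ) (b : ℕ → ℂ) :
    Mass (zeros T) N b = ∑ s ∈ H370.Zf riemannZeta T (2 * T), (Pool.Agent.Q97.UM.mz s : ℝ) * ‖Pool.Agent.Q97.UM.dp N b s.im‖ ^ 2 := by
  unfold Mass
  rw [zeros_eq, H370.finsum_Zf H370.good_zeta h]
  rfl

lemma mem_iff {T : ℝ} (hT : 1 ≤ T) (s : ℂ) : s ∈ zeros T ↔ s ∈ H370.Zf riemannZeta T (2 * T) := by
  rw [H370.mem_Zf H370.good_zeta hT, zeros_eq]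

lemma near_mem {T x : ℝ} (hT : 16 ≤ T) {s s' : ℂ} (hs : s ∈ zeros T) (h0 : riemannZeta s' = 0) (h1 : 0 < s'.re) (h2 : s'.re < 1)
    (hx : x ≤ 8) (hd : |s'.im - s.im| ≤ x) : s' ∈ Pool.Agent.Q97.UM.ZD T := by
  unfold Pool.Agent.Q97.UM.ZD
  rw [H370.mem_Zf H370.good_zeta (by linarith : (1 : ℝ) ≤ T / 16)]
  obtain ⟨_, _, _, h3, h4⟩ := hs
  rw [abs_le] at hd
  exact ⟨h1, h2, by linarith, by linarith, h0⟩

open Classical in
lemma close_eq {η T : ℝ} (hT : 16 ≤ T) (hη : 0 < η) (hη1 : η ≤ 1 / 2) : close η T =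
    (((H370.Zf riemannZeta T (2 * T)).filter (fun s => 2 ≤ Pool.Agent.Q97.UM.mz s ∨
      ∃ s' ∈ Pool.Agent.Q97.UM.ZD T, s' ≠ s ∧ |s'.im - s.im| ≤ (1 - η) * (2 * Real.pi / Real.log T)) : Finset ℂ) : Set ℂ) := by
  have hlog : 1 ≤ Real.log T := by
    rw [Real.le_log_iff_exp_le (by linarith)]
    have := Real.exp_one_lt_d9
    linarith
  have hsp : (1 - η) * (2 * Real.pi / Real.log T) ≤ 8 := by
    have hpi := Real.pi_lt_four
    have h1 : 2 * Real.pi / Real.log T ≤ 8 := by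
      rw [div_le_iff₀ (by linarith)]
      nlinarith
    have h0 : 0 ≤ 2 * Real.pi / Real.log T := by positivity
    nlinarith
  ext s
  simp only [close, Set.mem_ofPred_eq, Finset.coe_filter]
  constructor
  · rintro ⟨hs, h⟩
    refine ⟨?_, ?_⟩
    · exact (mem_iff (by linarith) s).1 hs
    · rcases h with h | ⟨s', h0, h1, h2, h3, h4⟩
      · exact Or.inl h
      · exact Or.inr ⟨s', near_mem hT hs h0 h1 h2 hsp h4, h3, h4⟩
  · rintro ⟨hs, h⟩
    have hs' : s ∈ zeros T := (mem_iff (by linarith) s).2 hs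
    refine ⟨hs', ?_⟩
    rcases h with h | ⟨s', h0, h3, h4⟩
    · exact Or.inl h
    · unfold Pool.Agent.Q97.UM.ZD at h0
      rw [H370.mem_Zf H370.good_zeta (by linarith : (1 : ℝ) ≤ T / 16)] at h0
      exact Or.inr ⟨s', h0.2.2.2.2, h0.1, h0.2.1, h3, h4⟩

open Classical in
lemma apart_eq {η T : ℝ} (hT : 16 ≤ T) (hη : 0 < η) (hη1 : η ≤ 1 / 2) : apart η T =
    (((H370.Zf riemannZeta T (2 * T)).filter (fun s => ∀ s' ∈ Pool.Agent.Q97.UM.ZD T,
      ¬ (s.im < s'.im ∧ s'.im < s.im + (1 + η) * (2 * Real.pi / Real.log T))) : Finset ℂ) : Set ℂ) := by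
  have hlog : 1 ≤ Real.log T := by
    rw [Real.le_log_iff_exp_le (by linarith)]
    have := Real.exp_one_lt_d9
    linarith
  have hlog2 : (2 : ℝ) ≤ Real.log T := by
    rw [Real.le_log_iff_exp_le (by linarith)]
    have h1 := Real.exp_one_lt_d9
    have h2 : Real.exp 2 = Real.exp 1 * Real.exp 1 := by rw [← Real.exp_add]; norm_num
    rw [h2]
    have := Real.exp_pos 1
    nlinarith
  have hsp : (1 + η) * (2 * Real.pi / Real.log T) ≤ 8 := by
    have hpi := Real.pi_lt_four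
    have h1 : 2 * Real.pi / Real.log T ≤ 4 := by
      rw [div_le_iff₀ (by linarith)]
      nlinarith
    have h0 : 0 ≤ 2 * Real.pi / Real.log T := by positivity
    nlinarith
  ext s
  simp only [apart, Set.mem_ofPred_eq, Finset.coe_filter]
  constructor
  · rintro ⟨hs, h⟩
    refine ⟨?_, ?_⟩
    · exact (mem_iff (by linarith) s).1 hs
    · intro s' h0
      unfold Pool.Agent.Q97.UM.ZD at h0
      rw [H370.mem_Zf H370.good_zeta (by linarith : (1 : ℝ) ≤ T / 16)] at h0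
      exact h s' h0.2.2.2.2 h0.1 h0.2.1
  · rintro ⟨hs, h⟩
    have hs' : s ∈ zeros T := (mem_iff (by linarith) s).2 hs
    refine ⟨hs', ?_⟩
    intro s' h0 h1 h2 h3
    refine h s' (near_mem hT hs' h0 h1 h2 hsp ?_) h3
    rw [abs_le]
    unfold spacing at h3
    constructor <;> linarith [h3.1, h3.2]

/-- **small and large gaps, relative to every Dirichlet polynomial** -/
theorem result :
    (∀ T : ℝ, 0 < T → (zeros T).Finite) ∧
    ∃ η θ c T₀ : ℝ, 0 < η ∧ 0 < θ ∧ 0 < c ∧ ∀ T : ℝ, T₀ ≤ T → ∀ N : ℕ, (N : ℝ) ≤ T ^ θ → ∀ b : ℕ → ℂ,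
      c * Mean T N b ≤ Mass (close η T) N b ∧ c * Mass (zeros T) N b ≤ Mass (close η T) N b ∧
      c * Mean T N b ≤ Mass1 (apart η T) N b ∧ c * Mass (zeros T) N b ≤ Mass1 (apart η T) N b := by
  refine ⟨zeros_finite, ?_⟩
  obtain ⟨θ₁, c₁, η, hθ₁, hc₁, hη, hη1, h1⟩ := Pool.Agent.Q97.UM.b_UG2
  obtain ⟨θ₂, hθ₂, hθ₂', h2⟩ := Pool.Agent.Q97.UM.b_SAMP 1 one_pos
  have h3 := Pool.Agent.Q97.UM.mv_rel 1 one_pos
  obtain ⟨T₀, hT₀⟩ := eventually_atTop.1 ((h1.and (h2.and h3)).and (eventually_ge_atTop 16))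
  refine ⟨η, min θ₁ θ₂, c₁ / 2, T₀, hη, by positivity, by positivity, ?_⟩
  intro T hT N hN0 b
  obtain ⟨⟨h4, h5, h6⟩, h7⟩ := hT₀ T hT
  have hN₁ : (N : ℝ) ≤ T ^ θ₁ := hN0.trans (Real.rpow_le_rpow_of_exponent_le (by linarith) (min_le_left _ _))
  have hN₂ : (N : ℝ) ≤ T ^ θ₂ := hN0.trans (Real.rpow_le_rpow_of_exponent_le (by linarith) (min_le_right _ _))
  have hN40 : (N : ℝ) ≤ T ^ (1 / 40 : ℝ) := hN₂.trans (Real.rpow_le_rpow_of_exponent_le (by linarith) hθ₂')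
  obtain ⟨a1, a2⟩ := h4 N hN₁ b
  obtain ⟨_, _, a3⟩ := h5 N hN₂ b
  have a4 := h6 N hN40 b
  have e1 : Mass (close η T) N b = ∑ s ∈ (H370.Zf riemannZeta T (2 * T)).filter (fun s => 2 ≤ Pool.Agent.Q97.UM.mz s ∨
      ∃ s' ∈ Pool.Agent.Q97.UM.ZD T, s' ≠ s ∧ |s'.im - s.im| ≤ (1 - η) * (2 * Real.pi / Real.log T)),
      (Pool.Agent.Q97.UM.mz s : ℝ) * ‖Pool.Agent.Q97.UM.dp N b s.im‖ ^ 2 := by
    classical
    unfold Mass
    rw [close_eq h7 hη hη1, finsum_mem_coe_finset]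
    apply Finset.sum_congr _ (fun s _ => rfl)
    congr
  have e2 : Mass1 (apart η T) N b = ∑ s ∈ (H370.Zf riemannZeta T (2 * T)).filter (fun s => ∀ s' ∈ Pool.Agent.Q97.UM.ZD T,
      ¬ (s.im < s'.im ∧ s'.im < s.im + (1 + η) * (2 * Real.pi / Real.log T))), ‖Pool.Agent.Q97.UM.dp N b s.im‖ ^ 2 := by
    classical
    unfold Mass1
    rw [apart_eq h7 hη hη1, finsum_mem_coe_finset]
    apply Finset.sum_congr _ (fun s _ => rfl)
    congr
  rw [e1, e2, all_eq T (by linarith)]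
  have hMean : Mean T N b = Real.log T / (2 * Real.pi) * ∫ t in T..(2 * T), ‖Pool.Agent.Q97.UM.dp N b t‖ ^ 2 := rfl
  rw [hMean]
  set X := T * Pool.Agent.Q97.UM.N2 N b with hX
  have hX0 : 0 ≤ X := by
    rw [hX]; unfold Pool.Agent.Q97.UM.N2; positivity
  have hpi3 := Real.pi_gt_three
  have hL0 : 0 < Real.log T := Real.log_pos (by linarith)
  have hLX : 0 ≤ Real.log T * X := by positivity
  rw [abs_le] at a3 a4
  have f1 : Real.log T / (2 * Real.pi) ≤ Real.log T / 6 := by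
    apply div_le_div_of_nonneg_left hL0.le (by norm_num) (by linarith)
  have m1 : Real.log T / (2 * Real.pi) * ∫ t in T..(2 * T), ‖Pool.Agent.Q97.UM.dp N b t‖ ^ 2 ≤ 2 * (Real.log T * X) := by
    have f0 : 0 ≤ Real.log T / (2 * Real.pi) := by positivity
    calc Real.log T / (2 * Real.pi) * ∫ t in T..(2 * T), ‖Pool.Agent.Q97.UM.dp N b t‖ ^ 2 ≤
        Real.log T / (2 * Real.pi) * (2 * X) := mul_le_mul_of_nonneg_left (by linarith [a4.2]) f0
      _ ≤ Real.log T / 6 * (2 * X) := mul_le_mul_of_nonneg_right f1 (by linarith)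
      _ ≤ 2 * (Real.log T * X) := by linarith
  have m2 : ∑ s ∈ H370.Zf riemannZeta T (2 * T), (Pool.Agent.Q97.UM.mz s : ℝ) * ‖Pool.Agent.Q97.UM.dp N b s.im‖ ^ 2 ≤
      2 * (Real.log T * X) := by
    have : Real.log T / (2 * Real.pi) * X ≤ Real.log T / 6 * X := mul_le_mul_of_nonneg_right f1 hX0
    linarith [a3.2]
  refine ⟨?_, ?_, ?_, ?_⟩
  · refine le_trans ?_ a1
    calc _ ≤ c₁ / 2 * (2 * (Real.log T * X)) := mul_le_mul_of_nonneg_left m1 (by positivity)
      _ = c₁ * Real.log T * X := by ring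
  · refine le_trans ?_ a1
    calc _ ≤ c₁ / 2 * (2 * (Real.log T * X)) := mul_le_mul_of_nonneg_left m2 (by positivity)
      _ = c₁ * Real.log T * X := by ring
  · refine le_trans ?_ a2
    calc _ ≤ c₁ / 2 * (2 * (Real.log T * X)) := mul_le_mul_of_nonneg_left m1 (by positivity)
      _ = c₁ * Real.log T * X := by ring
  · refine le_trans ?_ a2
    calc _ ≤ c₁ / 2 * (2 * (Real.log T * X)) := mul_le_mul_of_nonneg_left m2 (by positivity)
      _ = c₁ * Real.log T * X := by ring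

end

end Pool.Agent.Results.MP_ca0a54_nt.GapsForEveryPolynomial
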