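import Pool.Agent.Q260.AH.Fing2
import Pool.Agent.Q65.AH.WAg
import Pool.Agent.Q65.AH.WPg
import Pool.Agent.Q65.AH.UPPg
import Pool.Agent.Q65.AH.TKg
import Pool.Agent.Q224.AH.KDg
import Pool.Agent.Q224.AH.GBg
import Pool.Agent.Q224.AH.ZP
import Pool.Agent.Q224.AH.NG
import Pool.Agent.Q224.AH.CR
import Pool.Agent.Q252.AH.BL
import Pool.Agent.Q96.AH.RS
import Pool.Agent.Q296.GM.Rh

/-!
# Primes in short intervals and small gaps between the zeros of the zeta function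

Assume the Riemann hypothesis. For a continuous weight `w` with `w(α) = 0` for `α ≥ R` let
`V(w, T) = (T / log² T) ∫_1^{T^R} w(log x / log T) (ψ(x + x/T) - ψ(x) - x/T)² dx / x²`,
a weighted variance of the primes in the intervals `(x, x + x/T]`, `x ≤ T^R`; no zeros of `ζ` occur in it. If the cosine
transform of `w` is not positive at all `x ≥ λ`, and if `V(w, T) ≥ ∫ w - w(0)/2 + η`, then a positive proportion of the
consecutive gaps of the zeros with ordinates in `[c T, C T]` are less than `(λ - δ) 2π / log T`.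

Idea of the proof. `V(w, T)` is, up to `o(1)`, a weighted mean over all heights `y T` of the excess of the pair sum with
the kernel `x ↦ ∫ w cos(2π x s) ds`, with the positive weight `(sin (y / 2) / (y / 2))²`; if there are few small gaps in
`[c T, C T]`, the pair sum of every block of heights is at most the diagonal up to `o(1)`.
-/

set_option autoImplicit false

open Filter Topology

namespace Pool.Agent.Results.MP_ca0a54_nt.PrimesAndSmallGaps

/-- the multiplicity of `s` as a zero of the Riemann zeta function (order of vanishing at `s`) -/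
noncomputable def zmult (s : ℂ) : ℕ := analyticOrderNatAt riemannZeta s

/-- the nontrivial zeros of `ζ` with ordinate in `(0, T]` -/
def zeros (T : ℝ) : Set ℂ :=
  {s : ℂ | riemannZeta s = 0 ∧ 0 < s.re ∧ s.re < 1 ∧ 0 < s.im ∧ s.im ≤ T}

/-- the number of the nontrivial zeros of `ζ` with ordinate in `(0, T]`, with multiplicity -/
noncomputable def N (T : ℝ) : ℕ := ∑ᶠ s ∈ zeros T, zmult s

/-- for `n ≥ 1`: the `n`-th positive ordinate `γ n` of a nontrivial zero of `ζ`, the ordinates being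
listed in nondecreasing order and repeated according to multiplicity -/
noncomputable def γ (n : ℕ) : ℝ := sInf {t : ℝ | n ≤ N t}

/-- the number of the `n` with `c T ≤ γ_n ≤ C T` and `γ_{n+1} - γ_n < b (2 π / log T)` -/
noncomputable def small (b c C T : ℝ) : ℕ :=
  {n : ℕ | 1 ≤ n ∧ c * T ≤ γ n ∧ γ n ≤ C * T ∧ γ (n + 1) - γ n < b * (2 * Real.pi / Real.log T)}.ncard

/-- the weighted variance of the primes in the intervals `(x, x + x / T]`, `1 ≤ x ≤ T ^ R` -/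
noncomputable def V (w : ℝ → ℝ) (R T : ℝ) : ℝ := T / Real.log T ^ 2 * ∫ x in (1 : ℝ)..(T ^ R),
  w (Real.log x / Real.log T) * ((Chebyshev.psi (x + x / T) - Chebyshev.psi x - x / T) ^ 2 / x ^ 2)

/-- the classical weight `1 - t + sin (2 π t) / 2π` with `t = min (|α| / R) 1` -/
noncomputable def cw (R α : ℝ) : ℝ :=
  1 - min (|α| / R) 1 + Real.sin (2 * Real.pi * min (|α| / R) 1) / (2 * Real.pi)

/-- **Theorem.** On the Riemann hypothesis. (1) Let `w` be continuous with `w(α) = 0` for `α ≥ R`, `R > 0`, let `lam > 0`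
and suppose that `∫_0^R w(s) cos (2 π x s) ds ≤ 0` for all `x ≥ lam`. For every `η > 0` there are `δ, c > 0` and `C ≥ 1`
such that for all large `T`: if `V(w, R, T) ≥ ∫_0^R w - w(0) / 2 + η` then at least `c N(T)` of the gaps
`γ_{n+1} - γ_n` with `c T ≤ γ_n ≤ C T` are less than `(lam - δ) 2π / log T`. (2) For every `R > 0` and `η > 0` there are
`δ, c > 0` and `C ≥ 1` such that for all large `T`: if `V(cw R, R, T) ≥ (R - 1) / 2 + η` then at least `c N(T)` of the gaps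
`γ_{n+1} - γ_n` with `c T ≤ γ_n ≤ C T` are less than `(1 / R - δ) 2π / log T`. -/
theorem result (RH : RiemannHypothesis) :
    (∀ (w : ℝ → ℝ) (R lam : ℝ), Continuous w → 0 < R → (∀ α : ℝ, R ≤ α → w α = 0) → 0 < lam →
      (∀ x : ℝ, lam ≤ x → ∫ s in (0 : ℝ)..R, w s * Real.cos (2 * Real.pi * x * s) ≤ 0) →
      ∀ η : ℝ, 0 < η → ∃ δ c C : ℝ, 0 < δ ∧ 0 < c ∧ 1 ≤ C ∧ ∀ᶠ T : ℝ in atTop,
        (∫ s in (0 : ℝ)..R, w s) - w 0 / 2 + η ≤ V w R T → c * N T ≤ (small (lam - δ) c C T : ℝ)) ∧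
    (∀ R : ℝ, 0 < R → ∀ η : ℝ, 0 < η → ∃ δ c C : ℝ, 0 < δ ∧ 0 < c ∧ 1 ≤ C ∧ ∀ᶠ T : ℝ in atTop,
        (R - 1) / 2 + η ≤ V (cw R) R T → c * N T ≤ (small (1 / R - δ) c C T : ℝ)) := by
  have hp := Pool.Agent.Q296.GM.L2_of_rh RH
  have hWA := Pool.Agent.Q65.AH.t_WAg
  have hBL := Pool.Agent.Q252.AH.t_BL Pool.Agent.Q224.AH.t_CR
  have hGB := Pool.Agent.Q224.AH.t_GBg hBL Pool.Agent.Q224.AH.t_KDg
  have hZP := Pool.Agent.Q224.AH.t_ZP hWA hGB hBL
  have hUPP := Pool.Agent.Q65.AH.t_UPPg hWA Pool.Agent.Q96.AH.t_RS hGB Pool.Agent.Q65.AH.t_WPg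
  have hNG := Pool.Agent.Q224.AH.t_NG
  have hTK := Pool.Agent.Q65.AH.t_TKg
  have main : ∀ (w : ℝ → ℝ) (R lam : ℝ), Continuous w → 0 < R → (∀ α : ℝ, R ≤ α → w α = 0) → 0 < lam →
      (∀ x : ℝ, lam ≤ x → ∫ s in (0 : ℝ)..R, w s * Real.cos (2 * Real.pi * x * s) ≤ 0) →
      ∀ η : ℝ, 0 < η → ∃ δ c C : ℝ, 0 < δ ∧ 0 < c ∧ 1 ≤ C ∧ ∀ᶠ T : ℝ in atTop,
        (∫ s in (0 : ℝ)..R, w s) - w 0 / 2 + η ≤ V w R T → c * N T ≤ (small (lam - δ) c C T : ℝ) :=
    fun w R lam h1 h2 h3 h4 h5 η hη =>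
      Pool.Agent.Q260.AH.gw_loc hZP hUPP hNG hTK RH hp ⟨h2, h1, h3⟩ h4 h5 hη
  refine ⟨main, fun R hR η hη => ?_⟩
  have hw := Pool.Agent.Q260.AH.wp_ok hR
  have h := main (cw R) R (1 / R) hw.2.1 hR hw.2.2 (by positivity) (fun x hx => Pool.Agent.Q260.AH.wp_cos hR hx) η hη
  have e : (∫ s in (0 : ℝ)..R, cw R s) - cw R 0 / 2 + η = (R - 1) / 2 + η := by
    have e1 : (∫ s in (0 : ℝ)..R, cw R s) = R / 2 := Pool.Agent.Q260.AH.wp_int hR
    have e2 : cw R 0 = 1 := Pool.Agent.Q260.AH.wp_zero R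
    rw [e1, e2]
    ring
  rwa [e] at h

end Pool.Agent.Results.MP_ca0a54_nt.PrimesAndSmallGaps
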